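import Pool.Agent.H53.SQ.Count
import Pool.Agent.H53.SQ.Short

/-!
# Lengths of the words with exactly one square-free self-shuffle

Over any alphabet, no word of length 1, 2, 4 or 5 has exactly one square-free self-shuffle. Over
three letters every other length occurs, and the number of such words of length `n` is at least
`3 ^ ((n - 19) / 28)` (natural subtraction and division), so it grows exponentially.
-/

namespace Pool.Agent.Results.MP_a86f9d_co.Lengths

open Pool.Agent.H53.SQ

theorem result :
    (∀ (α : Type) (u : List α),
      u.length = 1 ∨ u.length = 2 ∨ u.length = 4 ∨ u.length = 5 → ¬ ExactlyOne u) ∧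
    ∀ n : ℕ, n ≠ 1 → n ≠ 2 → n ≠ 4 → n ≠ 5 →
      3 ^ ((n - 19) / 28) ≤ {u : List (Fin 3) | u.length = n ∧ ExactlyOne u}.ncard :=
  ⟨fun _ u h => no_short u h, count_all⟩

end Pool.Agent.Results.MP_a86f9d_co.Lengths
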