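import Pool.Agent.H53.SQ.Count

/-!
# Words built from nine blocks

Nine ternary words of length 28, in three classes of three. For a word `t` over the nine blocks
the concatenation `blocks t` has at most one square-free self-shuffle, the concatenation of the
images; it has exactly one if and only if that word is square-free, which holds when the word of
the classes is square-free and fails when `t` has a square.
-/

namespace Pool.Agent.Results.MP_a86f9d_co.NineBlocks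

open Pool.Agent.H53.SQ

/-- block 0 -/
def b0 : List (Fin 3) :=
  [0, 1, 0, 2, 2, 1, 1, 2, 0, 1, 0, 0, 2, 1, 0, 2, 0, 1, 1, 2, 2, 0, 0, 1, 0, 2, 1, 2]

/-- block 1 -/
def b1 : List (Fin 3) :=
  [0, 1, 0, 2, 2, 1, 1, 2, 0, 1, 0, 0, 2, 1, 0, 2, 0, 1, 1, 2, 2, 0, 2, 0, 1, 0, 1, 2]

/-- block 2 -/
def b2 : List (Fin 3) :=
  [0, 1, 0, 2, 2, 1, 1, 2, 0, 1, 0, 0, 2, 1, 0, 2, 0, 1, 1, 2, 2, 1, 0, 2, 0, 0, 1, 2]

/-- block 3 -/
def b3 : List (Fin 3) :=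
  [0, 1, 0, 2, 2, 1, 1, 2, 0, 1, 0, 0, 2, 1, 0, 2, 1, 2, 1, 0, 2, 0, 0, 1, 0, 2, 1, 2]

/-- block 4 -/
def b4 : List (Fin 3) :=
  [0, 1, 0, 2, 2, 1, 1, 2, 0, 1, 0, 0, 2, 1, 0, 1, 2, 2, 0, 0, 1, 2, 1, 0, 0, 2, 1, 2]

/-- block 5 -/
def b5 : List (Fin 3) :=
  [0, 1, 0, 2, 2, 1, 1, 2, 0, 1, 0, 0, 2, 1, 0, 1, 2, 2, 0, 0, 1, 2, 1, 0, 2, 0, 1, 2]

/-- block 6 -/
def b6 : List (Fin 3) :=
  [0, 1, 0, 2, 2, 1, 1, 2, 0, 1, 0, 0, 2, 1, 0, 2, 0, 1, 1, 2, 0, 0, 1, 2, 0, 2, 1, 2]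

/-- block 7 -/
def b7 : List (Fin 3) :=
  [0, 1, 0, 2, 2, 1, 1, 2, 0, 1, 0, 0, 2, 1, 0, 2, 1, 0, 1, 0, 2, 1, 0, 2, 2, 0, 1, 2]

/-- block 8 -/
def b8 : List (Fin 3) :=
  [0, 1, 0, 2, 2, 1, 1, 2, 0, 1, 0, 0, 2, 1, 0, 1, 2, 2, 0, 0, 1, 2, 0, 2, 1, 0, 1, 2]

/-- the nine blocks -/
def block : Fin 9 → List (Fin 3) := ![b0, b1, b2, b3, b4, b5, b6, b7, b8]

/-- image word 0 -/
def v0 : List (Fin 3) :=
  [0, 1, 0, 2, 0, 1, 2, 1, 0, 2, 1, 2, 0, 1, 0, 2, 1, 0, 1, 2, 0, 1, 0, 2, 0, 1, 2, 1,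
  0, 2, 0, 1, 0, 2, 1, 2, 0, 1, 2, 1, 0, 2, 0, 1, 2, 0, 2, 1, 0, 2, 0, 1, 0, 2, 1, 2]

/-- image word 1 -/
def v1 : List (Fin 3) :=
  [0, 1, 0, 2, 0, 1, 2, 1, 0, 2, 1, 2, 0, 1, 0, 2, 1, 0, 1, 2, 0, 1, 0, 2, 0, 1, 2, 1,
  0, 2, 1, 2, 0, 2, 1, 0, 2, 0, 1, 0, 2, 1, 0, 1, 2, 0, 2, 1, 0, 2, 0, 1, 0, 2, 1, 2]

/-- image word 2 -/
def v2 : List (Fin 3) :=
  [0, 1, 0, 2, 0, 1, 2, 1, 0, 2, 1, 2, 0, 1, 0, 2, 1, 0, 1, 2, 0, 1, 0, 2, 0, 1, 2, 1,
  0, 1, 2, 0, 2, 1, 0, 2, 0, 1, 2, 0, 2, 1, 0, 1, 2, 0, 1, 0, 2, 0, 1, 2, 0, 2, 1, 2]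

/-- image word 3 -/
def v3 : List (Fin 3) :=
  [0, 1, 0, 2, 0, 1, 2, 1, 0, 2, 1, 2, 0, 1, 0, 2, 1, 0, 1, 2, 0, 1, 0, 2, 0, 1, 2, 1,
  0, 2, 0, 1, 0, 2, 1, 0, 1, 2, 0, 1, 0, 2, 1, 2, 0, 2, 1, 0, 2, 0, 1, 2, 0, 2, 1, 2]

/-- image word 4 -/
def v4 : List (Fin 3) :=
  [0, 1, 0, 2, 0, 1, 2, 1, 0, 2, 1, 2, 0, 1, 0, 2, 1, 0, 1, 2, 0, 1, 0, 2, 0, 1, 2, 1,
  0, 1, 2, 0, 2, 1, 0, 2, 0, 1, 2, 0, 2, 1, 2, 0, 1, 0, 2, 0, 1, 2, 0, 2, 1, 0, 1, 2]

/-- the images of the nine blocks -/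
def image : Fin 9 → List (Fin 3) := ![v0, v0, v0, v1, v2, v2, v3, v3, v4]

/-- the classes of the nine blocks -/
def cls : Fin 9 → Fin 3 := ![0, 0, 0, 1, 1, 1, 2, 2, 2]

theorem block_eq : ∀ a : Fin 9, block a = (NX9 a).map retr := by decide +kernel

theorem image_eq : ∀ a : Fin 9, image a = (W5 (w9 a)).map retr := by decide +kernel

theorem blocks_eq (t : List (Fin 9)) : t.flatMap block = (phi t).map retr := by
  unfold phi
  rw [List.map_flatMap]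
  exact List.flatMap_congr fun a _ => block_eq a

theorem images_eq (t : List (Fin 9)) : t.flatMap image = (psi t).map retr := by
  unfold psi
  rw [List.map_flatMap]
  exact List.flatMap_congr fun a _ => image_eq a

theorem image_length_ne : ∀ a : Fin 9, (image a).length ≠ 0 := by decide +kernel

theorem sf_of_sf_images {t : List (Fin 9)} (h : SquareFree (t.flatMap image)) : SquareFree t := by
  rintro x hx ⟨s, r, hsr⟩
  refine h (x.flatMap image) ?_ ⟨s.flatMap image, r.flatMap image, ?_⟩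
  · rcases x with _ | ⟨a, x⟩
    · exact absurd rfl hx
    · intro h0
      rw [List.flatMap_cons, List.append_eq_nil_iff] at h0
      have h1 : (image a).length = 0 := by rw [h0.1]; rfl
      exact image_length_ne a h1
  · rw [← hsr]
    simp [List.flatMap_append]

/-- The statement. -/
theorem result :
    (∀ t : List (Fin 9), ∀ w ∈ selfShuffles (t.flatMap block), SquareFree w →
      w = t.flatMap image) ∧
    (∀ t : List (Fin 9), ExactlyOne (t.flatMap block) ↔ SquareFree (t.flatMap image)) ∧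
    (∀ t : List (Fin 9), SquareFree (t.map cls) → ExactlyOne (t.flatMap block)) ∧
    (∀ t : List (Fin 9), ExactlyOne (t.flatMap block) → SquareFree t) ∧
    ∀ m : ℕ, 3 ^ m ≤ {t : List (Fin 9) | t.length = m ∧ SquareFree (t.map cls)}.ncard := by
  have hiff : ∀ t : List (Fin 9),
      ExactlyOne (t.flatMap block) ↔ SquareFree (t.flatMap image) := by
    intro t
    rw [blocks_eq, images_eq]
    exact exactlyOne_iff (phi_lt t) (phi_shuf t) (phi_forced t)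
  refine ⟨?_, hiff, ?_, ?_, ?_⟩
  · intro t w hw hsf
    rw [blocks_eq] at hw
    rw [images_eq]
    exact forced_fin (phi_lt t) (phi_forced t) w hw hsf
  · intro t ht
    rw [hiff, images_eq, squareFree_retr (psi_lt t)]
    exact psi_sf t ht
  · intro t ht
    exact sf_of_sf_images ((hiff t).mp ht)
  · intro m
    obtain ⟨c0, c1, c2, s, hs, hlen, hsf⟩ := family m
    have hfin : {t : List (Fin 9) | t.length = m ∧ SquareFree (t.map cls)}.Finite :=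
      (List.finite_length_eq (Fin 9) m).subset fun _ hu => hu.1
    have h := ncard_ge hfin s hs fun g => ⟨hlen g, ?_⟩
    · simpa using h
    · refine (hsf g).factor ⟨[c0, c1], [c2], ?_⟩
      have e : (s g).map cls = (s g).map cl9 := rfl
      rw [e]
      simp

end Pool.Agent.Results.MP_a86f9d_co.NineBlocks
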